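import Pool.Agent.Lib.MP_b5021c_nt.W.H80.Win

/-!
# KV_E5, one variable (PaperKV 10): lemmas without the lattice part
-/

namespace Pool.Agent.B5.KV.H69

open Polynomial
open Pool.Agent.B5.Nr.Sch (Loc)

theorem tail_bound (H : ℤ[X]) (h : ∀ k, |H.coeff k| ≤ 1) (x : ℝ) (h0 : 0 < x) (h1 : x < 1) :
    |(aeval x H : ℝ)| ≤ 1 / (1 - x) := by
  rw [aeval_eq_sum_range]
  have hc : ∀ i, |(H.coeff i • x ^ i : ℝ)| ≤ x ^ i := by
    intro i
    rw [zsmul_eq_mul, abs_mul, abs_of_pos (pow_pos h0 i)]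
    have : |((H.coeff i : ℤ) : ℝ)| ≤ 1 := by
      rw [← Int.cast_abs]
      exact_mod_cast h i
    nlinarith [pow_pos h0 i]
  calc |∑ i ∈ Finset.range (H.natDegree + 1), (H.coeff i • x ^ i : ℝ)|
      ≤ ∑ i ∈ Finset.range (H.natDegree + 1), |(H.coeff i • x ^ i : ℝ)| :=
        Finset.abs_sum_le_sum_abs _ _
    _ ≤ ∑ i ∈ Finset.range (H.natDegree + 1), x ^ i := Finset.sum_le_sum fun i _ => hc i
    _ ≤ 1 / (1 - x) := by
        rw [geom_sum_eq (ne_of_lt h1), ← neg_div_neg_eq]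
        have h2 : 0 < 1 - x := by linarith
        have h3 : -(x - 1) = 1 - x := by ring
        rw [h3]
        apply div_le_div_of_nonneg_right _ h2.le
        have := pow_pos h0 (H.natDegree + 1)
        linarith

/-- For `0 < x < 1/2` the sign of a polynomial with coefficients in `{-1,0,1}` does not
depend on `x`. -/
theorem sign_indep (n : ℕ) : ∀ G : ℤ[X], G.natDegree ≤ n → (∀ k, |G.coeff k| ≤ 1) →
    ∀ x y : ℝ, 0 < x → x < 1 / 2 → 0 < y → y < 1 / 2 → 0 < (aeval x G : ℝ) →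
      0 < (aeval y G : ℝ) := by
  induction n with
  | zero =>
    intro G hG hc x y hx0 hx1 hy0 hy1 h
    rw [eq_C_of_natDegree_le_zero hG] at h ⊢
    simpa using h
  | succ n ih =>
    intro G hG hc x y hx0 hx1 hy0 hy1 h
    have hd : ∀ t : ℝ, (aeval t G : ℝ) = aeval t G.divX * t + (G.coeff 0 : ℝ) := by
      intro t
      conv_lhs => rw [← divX_mul_X_add G]
      simp
    have hdc : ∀ k, |G.divX.coeff k| ≤ 1 := fun k => by
      rw [coeff_divX]
      exact hc _
    have hdd : G.divX.natDegree ≤ n := by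
      rw [natDegree_divX_eq_natDegree_tsub_one]
      omega
    have hb : ∀ t : ℝ, 0 < t → t < 1 / 2 → |(aeval t G.divX : ℝ) * t| < 1 := by
      intro t ht0 ht1
      have h1 := tail_bound G.divX hdc t ht0 (by linarith)
      rw [abs_mul, abs_of_pos ht0]
      have h2 : 0 < 1 - t := by linarith
      have h3 : 1 / (1 - t) * t < 1 := by
        rw [div_mul_eq_mul_div, div_lt_one h2]
        linarith
      nlinarith
    have hx := hd x
    have hy := hd y
    have hbx := abs_lt.mp (hb x hx0 hx1)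
    have hby := abs_lt.mp (hb y hy0 hy1)
    have hc0 := abs_le.mp (hc 0)
    rcases (by omega : G.coeff 0 = -1 ∨ G.coeff 0 = 0 ∨ G.coeff 0 = 1) with h1 | h1 | h1
    · rw [h1] at hx
      push_cast at hx
      linarith [hbx.2]
    · rw [h1] at hx hy
      push_cast at hx hy
      rw [hx, add_zero] at h
      rw [hy, add_zero]
      exact mul_pos (ih _ hdd hdc x y hx0 hx1 hy0 hy1 ((mul_pos_iff_of_pos_right hx0).mp h)) hy0
    · rw [h1] at hy
      push_cast at hy
      linarith [hby.1]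

theorem loc_root {q f : ℤ[X]} {a : ℝ} (h : Loc q f a) : (aeval a q : ℝ) = 0 := by
  obtain ⟨s, hs, -⟩ := h.s
  have h1 : (aeval a q : ℝ) = eval a (q.map (Int.castRingHom ℝ)) := by
    rw [eval_map, aeval_def]
    rfl
  rw [h1, hs]
  simp

/-- First case of PaperKV 10. -/
theorem case_one (q f E F : ℤ[X]) (a : ℝ) (j : ℕ) (hL : Loc q f a) (hj : 3 ≤ j)
    (haj : a < 1 / j) (hth : a⁻¹ - a < j) (hE : f - q = X * E) (h1 : E = C (j : ℤ) + F)
    (h2 : (1 + X) * f = 1 + F) (hF0 : F.coeff 0 = 0) (hFc : ∀ k, |F.coeff k| ≤ 1)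
    (hx : ∀ x : ℝ, 0 < x → x⁻¹ - x = j - 1 → (aeval x F : ℝ) ≤ x) : False := by
  have a0 := hL.a0
  have hj3 : (3 : ℝ) ≤ j := by exact_mod_cast hj
  have hja : a * j < 1 := by
    rw [lt_div_iff₀ (by linarith)] at haj
    exact haj
  have ha3 : a < 1 / 3 := by nlinarith
  have hq := loc_root hL
  have e1 : (aeval a f : ℝ) - aeval a q = a * aeval a E := by
    have := congrArg (fun p : ℤ[X] => (aeval a p : ℝ)) hE
    simpa using this
  have e2 : (aeval a E : ℝ) = j + aeval a F := by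
    rw [h1]
    simp
  have e3 : (1 + a) * (aeval a f : ℝ) = 1 + aeval a F := by
    have := congrArg (fun p : ℤ[X] => (aeval a p : ℝ)) h2
    simpa using this
  rw [hq, sub_zero, e2] at e1
  rw [e1] at e3
  have hth' : 1 - a ^ 2 < j * a := by
    have h3 : a * (a⁻¹ - a) < a * j := mul_lt_mul_of_pos_left hth a0
    have h4 : a * (a⁻¹ - a) = 1 - a ^ 2 := by
      rw [mul_sub, mul_inv_cancel₀ a0.ne']
      ring
    rw [h4] at h3
    linarith
  have hFa : a < (aeval a F : ℝ) := by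
    have h3 : (aeval a F : ℝ) * (1 - a - a ^ 2) = j * a * (1 + a) - 1 := by
      linear_combination (-1 : ℝ) * e3
    have h4 : a * (1 - a - a ^ 2) < (aeval a F : ℝ) * (1 - a - a ^ 2) := by
      rw [h3]
      nlinarith
    exact lt_of_mul_lt_mul_right h4 (by nlinarith)
  -- `F = X * F.divX`
  have hd : ∀ t : ℝ, (aeval t F : ℝ) = t * aeval t F.divX := by
    intro t
    conv_lhs => rw [← divX_mul_X_add F]
    simp [hF0, mul_comm]
  have hdc : ∀ k, |F.divX.coeff k| ≤ 1 := fun k => by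
    rw [coeff_divX]
    exact hFc _
  have hdd : ∀ t : ℝ, (aeval t F.divX : ℝ) = t * aeval t F.divX.divX + (F.coeff 1 : ℝ) := by
    intro t
    conv_lhs => rw [← divX_mul_X_add F.divX]
    simp [coeff_divX, mul_comm]
  have hddc : ∀ k, |F.divX.divX.coeff k| ≤ 1 := fun k => by
    rw [coeff_divX]
    exact hdc _
  have hD : 1 < (aeval a F.divX : ℝ) := by
    rw [hd] at hFa
    by_contra hcon
    nlinarith [not_lt.mp hcon]
  have hb := abs_le.mp (tail_bound F.divX.divX hddc a a0 (by linarith))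
  have hb2 : (1 : ℝ) / (1 - a) ≤ 3 / 2 := by
    rw [div_le_div_iff₀ (by linarith) (by norm_num)]
    linarith
  have hF1 : F.coeff 1 = 1 := by
    have h5 := abs_le.mp (hFc 1)
    by_contra hcon
    have h6 : F.coeff 1 ≤ 0 := by omega
    have h7 : (F.coeff 1 : ℝ) ≤ 0 := by exact_mod_cast h6
    have h8 := hdd a
    nlinarith [hb.2]
  have hDD : 0 < (aeval a F.divX.divX : ℝ) := by
    have h8 := hdd a
    rw [hF1] at h8
    push_cast at h8
    have h9 : 0 < a * (aeval a F.divX.divX : ℝ) := by linarith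
    exact (mul_pos_iff_of_pos_left a0).mp h9
  -- `x` with `1/x - x = j - 1`
  obtain ⟨x, hx0, hx1, hxe⟩ : ∃ x : ℝ, 0 < x ∧ x < 1 / 2 ∧ x⁻¹ - x = j - 1 := by
    set N : ℝ := j - 1 with hN
    have hN2 : 2 ≤ N := by linarith
    set r : ℝ := Real.sqrt (N ^ 2 + 4) with hr
    have hr2 : r ^ 2 = N ^ 2 + 4 := Real.sq_sqrt (by positivity)
    have hr0 : 0 ≤ r := Real.sqrt_nonneg _
    have hrN : N < r := by nlinarith
    refine ⟨(r - N) / 2, by linarith, ?_, ?_⟩
    · nlinarith
    · have h9 : ((r - N) / 2)⁻¹ = (r + N) / 2 := by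
        apply inv_eq_of_mul_eq_one_right
        nlinarith
      rw [h9]
      ring
  have h10 := sign_indep _ F.divX.divX le_rfl hddc a x a0 (by linarith) hx0 hx1 hDD
  have h11 := hx x hx0 hxe
  rw [hd, hdd, hF1] at h11
  push_cast at h11
  nlinarith [mul_pos hx0 (mul_pos hx0 h10)]

/-- Second case of PaperKV 10. -/
theorem case_two (q f E : ℤ[X]) (a : ℝ) (j k : ℕ) (ep : ℤ) (hL : Loc q f a) (hj : 3 ≤ j)
    (haj : a < 1 / j) (hth : a⁻¹ - a < j) (hE : f - q = X * E) (hk : 1 ≤ k)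
    (hep : ep = 1 ∨ ep = -1) (h1 : E = C (j : ℤ) - C ep * X ^ k)
    (h2 : (1 + X) * f = 1 + C ((j - 2) * ep) * X ^ k) : False := by
  have a0 := hL.a0
  have hj3 : j = 3 := by
    have h3 := congrArg (fun p : ℤ[X] => p.eval (-1)) h2
    simp only [eval_mul, eval_add, eval_one, eval_X, eval_C, eval_pow] at h3
    rcases neg_one_pow_eq_or ℤ k with h4 | h4 <;> rcases hep with h5 | h5 <;>
      rw [h4, h5] at h3 <;> omega
  subst hj3
  have ha3 : a < 1 / 3 := by
    push_cast at haj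
    linarith
  have hq := loc_root hL
  have e1 : (aeval a f : ℝ) - aeval a q = a * aeval a E := by
    have := congrArg (fun p : ℤ[X] => (aeval a p : ℝ)) hE
    simpa using this
  have e2 : (aeval a E : ℝ) = 3 - ep * a ^ k := by
    rw [h1, map_sub, aeval_C, map_mul, aeval_C, map_pow, aeval_X]
    simp
  have e3 : (1 + a) * (aeval a f : ℝ) = 1 + ep * a ^ k := by
    have h3 := congrArg (fun p : ℤ[X] => (aeval a p : ℝ)) h2
    have h4 : (((3 : ℕ) : ℤ) - 2) * ep = ep := by
      push_cast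
      ring
    rw [h4] at h3
    simpa using h3
  rw [hq, sub_zero, e2] at e1
  rw [e1] at e3
  have hth' : 1 - a ^ 2 < 3 * a := by
    have h3 : a * (a⁻¹ - a) < a * ((3 : ℕ) : ℝ) := mul_lt_mul_of_pos_left hth a0
    have h4 : a * (a⁻¹ - a) = 1 - a ^ 2 := by
      rw [mul_sub, mul_inv_cancel₀ a0.ne']
      ring
    rw [h4] at h3
    push_cast at h3
    linarith
  -- `Z (1 + a + a^2) = 3a(1+a) - 1 > a (1 - a - a^2)`
  have hZ : (ep : ℝ) * a ^ k * (1 + a + a ^ 2) = 3 * a * (1 + a) - 1 := by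
    linear_combination (-1 : ℝ) * e3
  have hZ2 : a * (1 - a - a ^ 2) < (ep : ℝ) * a ^ k * (1 + a + a ^ 2) := by
    rw [hZ]
    nlinarith
  have hak : 0 < a ^ k := pow_pos a0 k
  rcases hep with rfl | rfl
  · rcases Nat.lt_or_ge k 2 with h5 | h5
    · have h6 : k = 1 := by omega
      subst h6
      push_cast at hZ
      rw [pow_one] at hZ
      have h7 : (1 + a) * (1 - 3 * a + a ^ 2) = 0 := by linear_combination hZ
      nlinarith [mul_pos (by linarith : (0 : ℝ) < 1 + a) (by nlinarith : 0 < 1 - 3 * a + a ^ 2)]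
    · have h6 : a ^ k ≤ a ^ 2 := pow_le_pow_of_le_one a0.le (by linarith) h5
      push_cast at hZ2
      have h7 : a * (1 - a - a ^ 2) < a ^ 2 * (1 + a + a ^ 2) := by
        nlinarith
      have h8 : 1 - a - a ^ 2 < a * (1 + a + a ^ 2) := by
        nlinarith
      nlinarith
  · push_cast at hZ2
    nlinarith

end Pool.Agent.B5.KV.H69
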