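import Pool.Agent.Lib.MP_b5021c_nt.IfaceKV
import Pool.Agent.Lib.MP_b5021c_nt.KV.H69.E5a

/-!
# KV_E5 (PaperKV 10)
-/

namespace Pool.Agent.B5.KV.H69

open Polynomial

theorem e5_st : KvyS := by
  intro q f E a j hL hj haj hth hE _ h
  rcases h with ⟨F, h1, h2, h0, hc, hx⟩ | ⟨k, ep, hk, hep, h1, h2⟩
  · exact case_one q f E F a j hL hj haj hth hE h1 h2 h0 hc hx
  · exact case_two q f E a j k ep hL hj haj hth hE hk hep h1 h2

end Pool.Agent.B5.KV.H69
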